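import Pool.Agent.Helper94.AL.Defs

open Set Finset

set_option linter.unusedSectionVars false

namespace Pool.AF

/-! ## AL-5 BURN: Burnside's theorem in odd dimension over the reals

An endomorphism commuting with an irreducible group has a real eigenvalue (odd dimension), hence is
a scalar; `jacobson_density` (Mathlib, RingTheory/SimpleModule/Basic) or a direct argument. -/

private theorem odd_root (P : Polynomial ℝ) (hP : P.Monic) (hodd : Odd P.natDegree) :
    ∃ c, P.eval c = 0 := by
  have hpos : 0 < P.natDegree := hodd.pos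
  have hdeg : 0 < P.degree := Polynomial.natDegree_pos_iff_degree_pos.1 hpos
  have htop : Filter.Tendsto (fun x => P.eval x) Filter.atTop Filter.atTop :=
    P.tendsto_atTop_of_leadingCoeff_nonneg hdeg (by rw [hP.leadingCoeff]; exact zero_le_one)
  have hbot : Filter.Tendsto (fun x => P.eval x) Filter.atBot Filter.atBot := by
    have h1 : Filter.Tendsto (fun x => (P.comp (-Polynomial.X)).eval x) Filter.atTop
        Filter.atBot := by
      apply Polynomial.tendsto_atBot_of_leadingCoeff_nonpos
      · rw [← Polynomial.natDegree_pos_iff_degree_pos, Polynomial.natDegree_comp,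
          Polynomial.natDegree_neg, Polynomial.natDegree_X, mul_one]
        exact hpos
      · rw [Polynomial.leadingCoeff_comp (by
          rw [Polynomial.natDegree_neg, Polynomial.natDegree_X]; exact one_ne_zero),
          hP.leadingCoeff, Polynomial.leadingCoeff_neg, Polynomial.leadingCoeff_X,
          hodd.neg_one_pow]
        norm_num
    have h2 := h1.comp Filter.tendsto_neg_atBot_atTop
    refine h2.congr fun x => ?_
    simp [Function.comp]
  exact P.continuous.surjective htop hbot 0

section

variable {G V : Type*} [Group G] [AddCommGroup V] [Module ℝ V] [FiniteDimensional ℝ V]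

theorem schur_odd (hV : Odd (Module.finrank ℝ V)) (ρ : G →* (V →ₗ[ℝ] V)) (Δ : Subgroup G)
    (hirr : ∀ U : Submodule ℝ V, (∀ δ ∈ Δ, ∀ u ∈ U, ρ δ u ∈ U) → U = ⊥ ∨ U = ⊤)
    (T : V →ₗ[ℝ] V) (hT : ∀ δ ∈ Δ, ∀ v, T (ρ δ v) = ρ δ (T v)) : ∃ c : ℝ, ∀ v, T v = c • v := by
  obtain ⟨c, hc⟩ := odd_root T.charpoly T.charpoly_monic (by rwa [T.charpoly_natDegree])
  have h1 : Module.End.HasEigenvalue T c := by
    rw [Module.End.hasEigenvalue_iff_isRoot_charpoly]
    exact hc
  obtain ⟨v, hv⟩ := h1.exists_hasEigenvector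
  refine ⟨c, ?_⟩
  rcases hirr (Module.End.eigenspace T c) (by
    intro δ hδ u hu
    rw [Module.End.mem_eigenspace_iff] at hu ⊢
    rw [hT δ hδ, hu, map_smul]) with h | h
  · exfalso
    have h2 : v ∈ Module.End.eigenspace T c := hv.1
    rw [h] at h2
    exact hv.2 h2
  · intro w
    have h2 : w ∈ Module.End.eigenspace T c := by rw [h]; trivial
    exact Module.End.mem_eigenspace_iff.1 h2

theorem span_eq_top (hV : Odd (Module.finrank ℝ V)) (ρ : G →* (V →ₗ[ℝ] V)) (Δ : Subgroup G)
    (hirr : ∀ U : Submodule ℝ V, (∀ δ ∈ Δ, ∀ u ∈ U, ρ δ u ∈ U) → U = ⊥ ∨ U = ⊤) :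
    Submodule.span ℝ ((fun δ => ρ δ) '' (Δ : Set G)) = ⊤ := by
  classical
  set A : Subalgebra ℝ (Module.End ℝ V) := Algebra.adjoin ℝ ((fun δ => ρ δ) '' (Δ : Set G))
    with hA
  have hAspan : Subalgebra.toSubmodule A = Submodule.span ℝ ((fun δ => ρ δ) '' (Δ : Set G)) := by
    rw [hA, Algebra.adjoin_eq_span]
    congr 1
    have h1 : ((fun δ => ρ δ) '' (Δ : Set G)) = ((Δ.toSubmonoid.map ρ : Submonoid _) : Set _) := by
      rfl
    rw [h1, Submonoid.closure_eq]
  have hmem : ∀ δ ∈ Δ, ρ δ ∈ A := fun δ hδ => Algebra.subset_adjoin ⟨δ, hδ, rfl⟩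
  have hnt : Nontrivial V := by
    have : 0 < Module.finrank ℝ V := hV.pos
    exact Module.nontrivial_of_finrank_pos this
  have hbt : ∀ U : Submodule A V, U = ⊥ ∨ U = ⊤ := by
    intro U
    rcases hirr (U.restrictScalars ℝ) (by
      intro δ hδ u hu
      have h2 := U.smul_mem ⟨ρ δ, hmem δ hδ⟩ hu
      exact h2) with h | h
    · left
      rw [eq_bot_iff]
      intro u hu
      have h3 : u ∈ U.restrictScalars ℝ := hu
      rw [h] at h3
      exact h3
    · right
      rw [eq_top_iff]
      intro u _
      have h3 : u ∈ U.restrictScalars ℝ := by rw [h]; trivial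
      exact h3
  have hsimple : IsSimpleModule A V := by
    rw [isSimpleModule_iff]
    have : Nontrivial (Submodule A V) := (Submodule.nontrivial_iff A).2 hnt
    exact ⟨hbt⟩
  rw [← hAspan, eq_top_iff]
  intro T _
  have hcomm : ∀ φ : Module.End A V, ∃ c : ℝ, ∀ v, φ v = c • v := by
    intro φ
    have := schur_odd hV ρ Δ hirr (φ.restrictScalars ℝ) (by
      intro δ hδ v
      have h2 := φ.map_smul (⟨ρ δ, hmem δ hδ⟩ : A) v
      exact h2)
    exact this
  let f : Module.End (Module.End A V) V :=
    { toFun := fun v => T v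
      map_add' := fun v w => T.map_add v w
      map_smul' := by
        intro φ v
        obtain ⟨c, hc⟩ := hcomm φ
        show T (φ v) = φ (T v)
        rw [hc, hc, T.map_smul] }
  let b := Module.finBasis ℝ V
  obtain ⟨r, hr⟩ := jacobson_density f (Finset.univ.image b)
  have h5 : T = (r : Module.End ℝ V) := by
    apply b.ext
    intro i
    exact hr (b i) (Finset.mem_image_of_mem _ (Finset.mem_univ i))
  rw [h5]
  exact r.2

end

end Pool.AF
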