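import Pool.Agent.Helper94.AL.Defs

open Set Finset

set_option linter.unusedSectionVars false

namespace Pool.AF

/-! ## AL-3 ALG: linear algebra in dimension three -/

section

variable {V : Type*} [AddCommGroup V] [Module ℝ V] [FiniteDimensional ℝ V]

private theorem mat_aux (M N : Matrix (Fin 3) (Fin 3) ℝ) (hMN : M * N = 1) (hdet : M.det = 1)
    (h : (1 - M).det = 0) : M.trace = N.trace := by
  have h1 : M.adjugate = N := by
    calc M.adjugate = M.adjugate * (M * N) := by rw [hMN, mul_one]
      _ = N := by rw [← mul_assoc, Matrix.adjugate_mul, hdet, one_smul, one_mul]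
  rw [← h1]
  rw [Matrix.det_fin_three] at h hdet
  rw [Matrix.adjugate_fin_three]
  simp only [Matrix.trace, Matrix.diag, Fin.sum_univ_three, Matrix.sub_apply, Matrix.one_apply,
    Matrix.of_apply, Matrix.cons_val', Matrix.cons_val_zero, Matrix.cons_val_one,
    Matrix.cons_val_two, Matrix.empty_val', Matrix.cons_val_fin_one, Matrix.head_cons,
    Matrix.tail_cons, Matrix.head_fin_const] at h ⊢
  simp at h ⊢
  linarith

/-- `det (1 - T) = 0` and `det T = 1` give `tr T = tr T⁻¹` in dimension three. -/
theorem trace_eq (hV : Module.finrank ℝ V = 3) (T S : V →ₗ[ℝ] V) (hTS : T * S = 1)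
    (hdet : LinearMap.det T = 1) (hfix : ∃ v, v ≠ 0 ∧ T v = v) :
    LinearMap.trace ℝ V T = LinearMap.trace ℝ V S := by
  classical
  let b := Module.finBasisOfFinrankEq ℝ V hV
  rw [LinearMap.trace_eq_matrix_trace ℝ b, LinearMap.trace_eq_matrix_trace ℝ b]
  refine mat_aux _ _ ?_ ?_ ?_
  · rw [← LinearMap.toMatrix_mul, hTS, LinearMap.toMatrix_one]
  · rw [LinearMap.det_toMatrix]
    exact hdet
  · rw [← LinearMap.toMatrix_one b, ← map_sub, LinearMap.det_toMatrix]
    obtain ⟨v, hv, hTv⟩ := hfix
    rw [LinearMap.det_eq_zero_iff_ker_ne_bot]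
    intro hker
    refine hv ?_
    have h1 : v ∈ LinearMap.ker (1 - T) := by
      rw [LinearMap.mem_ker, LinearMap.sub_apply, hTv]
      exact sub_self v
    rwa [hker, Submodule.mem_bot] at h1

/-- Elements of the commutator subgroup have determinant one. -/
theorem det_commutator {G : Type*} [Group G] (ρ : G →* (V →ₗ[ℝ] V)) (δ : G)
    (hδ : δ ∈ commutator G) : LinearMap.det (ρ δ) = 1 := by
  let f : G →* ℝˣ := (LinearMap.det.comp ρ).toHomUnits
  have h1 : commutator G ≤ f.ker := by
    rw [commutator_def, Subgroup.commutator_le]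
    intro a _ b _
    rw [MonoidHom.mem_ker, map_commutatorElement]
    exact commutatorElement_eq_one_iff_mul_comm.2 (mul_comm _ _)
  have h2 := h1 hδ
  rw [MonoidHom.mem_ker] at h2
  have h3 := congrArg Units.val h2
  exact h3

end

end Pool.AF
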