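import Pool.Agent.Helper94.AL.Defs

open Set Finset

set_option linter.unusedSectionVars false

namespace Pool.AF

/-! ## AL-4 CLIFF: a normal subgroup of a strongly irreducible group in dimension three is
trivial or irreducible

Invariant line of `Δ`: the sum of all `Δ`-invariant lines is `G`-invariant, hence `V`; so `V` has a
basis of common eigenvectors with characters `χ₁, χ₂, χ₃`; the finitely many spaces
`V_χ = {v | ρ δ v = χ δ • v}` are permuted by `G`, the stabiliser of one of them has finite index,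
so `V_χ = V`, `Δ` acts by scalars `χ` with `χ ^ 3 = det = 1`.  Invariant plane `U` but no invariant
line: `ρ g U ∩ U` is invariant of dimension one or two, so `ρ g U = U` for all `g`. -/

section Cliff

variable {G V : Type*} [Group G] [AddCommGroup V] [Module ℝ V]

private theorem inv_app (ρ : G →* (V →ₗ[ℝ] V)) (g : G) (v : V) : ρ g⁻¹ (ρ g v) = v := by
  have h : ρ g⁻¹ * ρ g = 1 := by rw [← map_mul, inv_mul_cancel, map_one]
  exact LinearMap.congr_fun h v

private theorem app_inv (ρ : G →* (V →ₗ[ℝ] V)) (g : G) (v : V) : ρ g (ρ g⁻¹ v) = v := by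
  have h : ρ g * ρ g⁻¹ = 1 := by rw [← map_mul, mul_inv_cancel, map_one]
  exact LinearMap.congr_fun h v

private theorem conj_app (ρ : G →* (V →ₗ[ℝ] V)) (g δ : G) (v : V) :
    ρ δ (ρ g v) = ρ g (ρ (g⁻¹ * δ * g) v) := by
  have h : ρ δ * ρ g = ρ g * ρ (g⁻¹ * δ * g) := by
    rw [← map_mul, ← map_mul]; congr 1; group
  exact LinearMap.congr_fun h v

/-- The vectors with the same character as `v`. -/
private def same (ρ : G →* (V →ₗ[ℝ] V)) (Δ : Subgroup G) (v : V) : Submodule ℝ V where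
  carrier := {w | ∀ δ ∈ Δ, ∀ c : ℝ, ρ δ v = c • v → ρ δ w = c • w}
  add_mem' := by
    intro a b ha hb δ hδ c hc
    rw [map_add, ha δ hδ c hc, hb δ hδ c hc, smul_add]
  zero_mem' := by
    intro δ _ c _
    rw [map_zero, smul_zero]
  smul_mem' := by
    intro r w hw δ hδ c hc
    rw [map_smul, hw δ hδ c hc, smul_comm]

private theorem self_mem (ρ : G →* (V →ₗ[ℝ] V)) (Δ : Subgroup G) (v : V) :
    v ∈ same ρ Δ v := fun _ _ _ hc => hc

private theorem same_app (ρ : G →* (V →ₗ[ℝ] V)) (Δ : Subgroup G) [hN : Δ.Normal] (g : G)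
    (v w : V) (hw : w ∈ same ρ Δ v) : ρ g w ∈ same ρ Δ (ρ g v) := by
  intro δ hδ c hc
  have hδ' : g⁻¹ * δ * g ∈ Δ := by
    have := hN.conj_mem δ hδ g⁻¹
    rwa [inv_inv] at this
  rw [conj_app] at hc ⊢
  have h1 : ρ (g⁻¹ * δ * g) v = c • v := by
    have h2 := congrArg (ρ g⁻¹) hc
    rw [inv_app, map_smul, inv_app] at h2
    exact h2
  rw [hw _ hδ' c h1, map_smul]

private theorem map_same (ρ : G →* (V →ₗ[ℝ] V)) (Δ : Subgroup G) [Δ.Normal] (g : G) (v : V) :
    (same ρ Δ v).map (ρ g) = same ρ Δ (ρ g v) := by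
  apply le_antisymm
  · rintro _ ⟨w, hw, rfl⟩
    exact same_app ρ Δ g v w hw
  · intro w hw
    refine ⟨ρ g⁻¹ w, ?_, app_inv ρ g w⟩
    have := same_app ρ Δ g⁻¹ _ w hw
    rwa [inv_app] at this

/-- Common eigenvectors. -/
private def ceig (ρ : G →* (V →ₗ[ℝ] V)) (Δ : Subgroup G) : Set V :=
  {v | ∀ δ ∈ Δ, ∃ c : ℝ, ρ δ v = c • v}

private theorem ceig_app (ρ : G →* (V →ₗ[ℝ] V)) (Δ : Subgroup G) [hN : Δ.Normal] (g : G)
    (v : V) (hv : v ∈ ceig ρ Δ) : ρ g v ∈ ceig ρ Δ := by
  intro δ hδ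
  have hδ' : g⁻¹ * δ * g ∈ Δ := by
    have := hN.conj_mem δ hδ g⁻¹
    rwa [inv_inv] at this
  obtain ⟨c, hc⟩ := hv _ hδ'
  exact ⟨c, by rw [conj_app, hc, map_smul]⟩

private theorem same_eq_basis {ι : Type*} (ρ : G →* (V →ₗ[ℝ] V)) (Δ : Subgroup G)
    (b : Module.Basis ι ℝ V) (hb : ∀ i, b i ∈ ceig ρ Δ) (v : V) (hv : v ∈ ceig ρ Δ)
    (hv0 : v ≠ 0) : ∃ i, same ρ Δ v = same ρ Δ (b i) := by
  have h1 : ∃ i, b.repr v i ≠ 0 := by
    by_contra hcon
    push Not at hcon
    apply hv0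
    apply b.repr.injective
    rw [map_zero]
    exact Finsupp.ext hcon
  obtain ⟨i, hi⟩ := h1
  refine ⟨i, ?_⟩
  -- the characters agree
  have key : ∀ δ ∈ Δ, ∀ c c' : ℝ, ρ δ v = c • v → ρ δ (b i) = c' • b i → c = c' := by
    intro δ hδ c c' hc hc'
    have h2 : ∀ w : V, b.repr (ρ δ w) i = c' * b.repr w i := by
      have h3 : (b.coord i).comp (ρ δ) = c' • b.coord i := by
        apply b.ext
        intro j
        obtain ⟨d, hd⟩ := hb j δ hδ
        rw [LinearMap.comp_apply, hd, map_smul, LinearMap.smul_apply]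
        by_cases hij : j = i
        · subst hij
          have h4 : d • b j = c' • b j := hd.symm.trans hc'
          rw [← map_smul, h4, map_smul]
        · rw [Module.Basis.coord_apply, Module.Basis.repr_self,
            Finsupp.single_eq_of_ne (Ne.symm hij), smul_zero, smul_zero]
      intro w
      exact LinearMap.congr_fun h3 w
    have h5 := h2 v
    rw [hc, map_smul, Finsupp.smul_apply, smul_eq_mul] at h5
    exact mul_right_cancel₀ hi h5
  ext w
  constructor
  · intro hw δ hδ c' hc'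
    obtain ⟨c, hc⟩ := hv δ hδ
    rw [hw δ hδ c hc, key δ hδ c c' hc hc']
  · intro hw δ hδ c hc
    obtain ⟨c', hc'⟩ := hb i δ hδ
    rw [hw δ hδ c' hc', key δ hδ c c' hc hc']

private theorem scalar_case [FiniteDimensional ℝ V] (ρ : G →* (V →ₗ[ℝ] V))
    (hirr : ∀ H : Subgroup G, H.FiniteIndex → ∀ U : Submodule ℝ V,
      (∀ h ∈ H, ∀ u ∈ U, ρ h u ∈ U) → U = ⊥ ∨ U = ⊤)
    (Δ : Subgroup G) [Δ.Normal] (v : V) (hv0 : v ≠ 0) (hv : v ∈ ceig ρ Δ) :
    same ρ Δ v = ⊤ := by
  classical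
  have hS : Submodule.span ℝ (ceig ρ Δ) = ⊤ := by
    rcases hirr ⊤ inferInstance (Submodule.span ℝ (ceig ρ Δ)) (by
      intro g _ u hu
      have h1 : (Submodule.span ℝ (ceig ρ Δ)).map (ρ g) ≤ Submodule.span ℝ (ceig ρ Δ) := by
        rw [Submodule.map_span, Submodule.span_le]
        rintro _ ⟨w, hw, rfl⟩
        exact Submodule.subset_span (ceig_app ρ Δ g w hw)
      exact h1 ⟨u, hu, rfl⟩) with h | h
    · exfalso
      apply hv0
      have h2 : v ∈ Submodule.span ℝ (ceig ρ Δ) := Submodule.subset_span hv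
      rw [h] at h2
      exact h2
    · exact h
  set b := Module.Basis.ofSpan (K := ℝ) hS.ge with hb
  have hbc : ∀ i, b i ∈ ceig ρ Δ := fun i => Module.Basis.ofSpan_subset hS.ge ⟨i, rfl⟩
  let act : MulAction G (Submodule ℝ V) :=
    { smul := fun g U => U.map (ρ g)
      one_smul := by
        intro U
        show U.map (ρ 1) = U
        rw [map_one]
        exact Submodule.map_id U
      mul_smul := by
        intro g h U
        show U.map (ρ (g * h)) = (U.map (ρ h)).map (ρ g)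
        rw [map_mul]
        exact Submodule.map_comp _ _ _ }
  have hact : ∀ (g : G) (U : Submodule ℝ V), g • U = U.map (ρ g) := fun _ _ => rfl
  have hfinι := Module.Finite.finite_basis b
  have horb : (MulAction.orbit G (same ρ Δ v)).Finite := by
    apply (Set.finite_range (fun i => same ρ Δ (b i))).subset
    rintro _ ⟨g, rfl⟩
    show g • same ρ Δ v ∈ _
    rw [hact, map_same]
    have hne : ρ g v ≠ 0 := by
      intro h0
      apply hv0
      rw [← inv_app ρ g v, h0, map_zero]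
    obtain ⟨i, hi⟩ := same_eq_basis ρ Δ b hbc (ρ g v) (ceig_app ρ Δ g v hv) hne
    exact ⟨i, hi.symm⟩
  have hfi : (MulAction.stabilizer G (same ρ Δ v)).FiniteIndex := by
    constructor
    rw [MulAction.index_stabilizer]
    have hne : (MulAction.orbit G (same ρ Δ v)).Nonempty := MulAction.nonempty_orbit _
    exact (Set.ncard_pos horb).2 hne |>.ne'
  rcases hirr _ hfi (same ρ Δ v) (by
    intro h hh u hu
    have h1 : (same ρ Δ v).map (ρ h) = same ρ Δ v := hh
    rw [← h1]
    exact ⟨u, hu, rfl⟩) with h | h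
  · exfalso
    apply hv0
    have := self_mem ρ Δ v
    rw [h] at this
    exact this
  · exact h

end Cliff

theorem trivial_or_irr {G V : Type*} [Group G] [AddCommGroup V] [Module ℝ V]
    [FiniteDimensional ℝ V] (hV : Module.finrank ℝ V = 3) (ρ : G →* (V →ₗ[ℝ] V))
    (hirr : ∀ H : Subgroup G, H.FiniteIndex → ∀ U : Submodule ℝ V,
      (∀ h ∈ H, ∀ u ∈ U, ρ h u ∈ U) → U = ⊥ ∨ U = ⊤)
    (Δ : Subgroup G) [Δ.Normal] (hdet : ∀ δ ∈ Δ, LinearMap.det (ρ δ) = 1) :
    (∀ δ ∈ Δ, ρ δ = 1) ∨ ∀ U : Submodule ℝ V, (∀ δ ∈ Δ, ∀ u ∈ U, ρ δ u ∈ U) → U = ⊥ ∨ U = ⊤ := by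
  classical
  by_cases hline : ∃ v : V, v ≠ 0 ∧ v ∈ ceig ρ Δ
  · left
    obtain ⟨v, hv0, hv⟩ := hline
    have htop := scalar_case ρ hirr Δ v hv0 hv
    intro δ hδ
    obtain ⟨c, hc⟩ := hv δ hδ
    have h1 : ρ δ = c • (1 : V →ₗ[ℝ] V) := by
      ext w
      have hw : w ∈ same ρ Δ v := by rw [htop]; trivial
      rw [hw δ hδ c hc]
      rfl
    have h2 := hdet δ hδ
    rw [h1, LinearMap.det_smul, hV] at h2
    have h3 : c ^ 3 = 1 := by
      have : LinearMap.det (1 : V →ₗ[ℝ] V) = 1 := LinearMap.det_id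
      rw [this, mul_one] at h2
      exact h2
    have h4 : c = 1 := by
      have h5 : (c - 1) * (c ^ 2 + c + 1) = 0 := by linear_combination h3
      rcases mul_eq_zero.1 h5 with h6 | h6
      · linarith
      · nlinarith [sq_nonneg (c + 1 / 2)]
    rw [h1, h4, one_smul]
  · right
    push Not at hline
    intro U hU
    by_contra hcon
    push Not at hcon
    obtain ⟨hb, ht⟩ := hcon
    have hno1 : ∀ W : Submodule ℝ V, (∀ δ ∈ Δ, ∀ u ∈ W, ρ δ u ∈ W) →
        Module.finrank ℝ W ≠ 1 := by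
      intro W hW h1
      rw [finrank_eq_one_iff'] at h1
      obtain ⟨w, hw0, hw⟩ := h1
      apply hline (w : V) (fun h => hw0 (Subtype.ext h))
      intro δ hδ
      obtain ⟨c, hc⟩ := hw ⟨ρ δ w, hW δ hδ w w.2⟩
      refine ⟨c, ?_⟩
      have := congrArg Subtype.val hc
      exact this.symm
    have hpos : 0 < Module.finrank ℝ U := by
      rw [Module.finrank_pos_iff]
      exact (Submodule.nontrivial_iff_ne_bot).2 hb
    have hlt : Module.finrank ℝ U < 3 := by
      rw [← hV]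
      exact Submodule.finrank_lt ht
    have hne1 := hno1 U hU
    have h2 : Module.finrank ℝ U = 2 := by omega
    have hinj : ∀ g : G, Function.Injective (ρ g) := by
      intro g a b hab
      have := congrArg (ρ g⁻¹) hab
      rwa [inv_app, inv_app] at this
    have hG : ∀ g : G, U.map (ρ g) = U := by
      intro g
      have h3 : Module.finrank ℝ (U.map (ρ g)) = 2 := by
        rw [← h2]
        exact (LinearEquiv.finrank_eq (Submodule.equivMapOfInjective (ρ g) (hinj g) U)).symm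
      have hinv : ∀ δ ∈ Δ, ∀ u ∈ U ⊓ U.map (ρ g), ρ δ u ∈ U ⊓ U.map (ρ g) := by
        rintro δ hδ u ⟨hu1, w, hw, rfl⟩
        refine ⟨hU δ hδ _ hu1, ?_⟩
        rw [conj_app]
        refine ⟨_, hU _ ?_ w hw, rfl⟩
        have := (inferInstance : Δ.Normal).conj_mem δ hδ g⁻¹
        rwa [inv_inv] at this
      have h4 := Submodule.finrank_sup_add_finrank_inf_eq U (U.map (ρ g))
      have h5 : Module.finrank ℝ (U ⊔ U.map (ρ g) : Submodule ℝ V) ≤ 3 := by
        rw [← hV]; exact Submodule.finrank_le _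
      have h6 := hno1 _ hinv
      have h7 : Module.finrank ℝ (U ⊓ U.map (ρ g) : Submodule ℝ V) ≤ Module.finrank ℝ U :=
        Submodule.finrank_mono inf_le_left
      have h8 : Module.finrank ℝ (U ⊓ U.map (ρ g) : Submodule ℝ V) = 2 := by omega
      have h9 : U ⊓ U.map (ρ g) = U :=
        Submodule.eq_of_le_of_finrank_eq inf_le_left (by rw [h8, h2])
      have h10 : U ⊓ U.map (ρ g) = U.map (ρ g) :=
        Submodule.eq_of_le_of_finrank_eq inf_le_right (by rw [h8, h3])
      exact h10.symm.trans h9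
    rcases hirr ⊤ inferInstance U (by
      intro g _ u hu
      have : ρ g u ∈ U.map (ρ g) := ⟨u, hu, rfl⟩
      rwa [hG g] at this) with h | h
    · exact hb h
    · exact ht h

end Pool.AF
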