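import Pool.Agent.Helper94.AL.Defs

open Set Finset

set_option linter.unusedSectionVars false

namespace Pool.AF

open Pool.SV

/-! ## AL-2 COMM: if the lineality space has codimension one (and `X` is not the whole space),
commutators act trivially modulo the lineality space

`X / V` is an open half line or a bounded open interval in `E / V ≅ ℝ`; a group of affine maps of
`ℝ` preserving it is abelian. -/

section Real

/-- An increasing affine bijection preserving a set fixes its supremum. -/
private theorem fix_sup (I : Set ℝ) (s : ℝ) (hs : IsLUB I s) (α β α' β' : ℝ) (h1 : α * α' = 1)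
    (h2 : α * β' + β = 0) (hpos : 0 < α) (hf : ∀ t ∈ I, α * t + β ∈ I)
    (hf' : ∀ t ∈ I, α' * t + β' ∈ I) : α * s + β = s := by
  apply le_antisymm
  · have h3 : s ≤ α' * s + β' := by
      refine hs.2 ?_
      intro t ht
      have h4 := hs.1 (hf t ht)
      have h5 : t = α' * (α * t + β) + β' := by
        have : α' * (α * t + β) + β' - t = (α * α' - 1) * t + α' * (α * β' + β) -
          β' * (α * α' - 1) := by ring
        rw [h1, h2] at this
        linarith
      have h6 : 0 < α' := by
        by_contra hc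
        have : α * α' ≤ 0 := mul_nonpos_of_nonneg_of_nonpos hpos.le (not_lt.1 hc)
        linarith
      rw [h5]
      have := mul_le_mul_of_nonneg_left h4 h6.le
      linarith
    have h7 := mul_le_mul_of_nonneg_left h3 hpos.le
    have h8 : α * (α' * s + β') + β = s := by
      have : α * (α' * s + β') + β = (α * α') * s + (α * β' + β) := by ring
      rw [this, h1, h2]
      ring
    linarith
  · refine hs.2 ?_
    intro t ht
    have h4 := hs.1 (hf' t ht)
    have h7 := mul_le_mul_of_nonneg_left h4 hpos.le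
    have h8 : α * (α' * t + β') + β = t := by
      have : α * (α' * t + β') + β = (α * α') * t + (α * β' + β) := by ring
      rw [this, h1, h2]
      ring
    linarith

/-- A decreasing affine bijection preserving a set maps its infimum to its supremum. -/
private theorem swap_sup (I : Set ℝ) (s i : ℝ) (hs : IsLUB I s) (hi : IsGLB I i)
    (α β α' β' : ℝ) (h1 : α * α' = 1)
    (h2 : α * β' + β = 0) (hneg : α < 0) (hf : ∀ t ∈ I, α * t + β ∈ I)
    (hf' : ∀ t ∈ I, α' * t + β' ∈ I) : α * i + β = s := by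
  apply le_antisymm
  · have h3 : α' * s + β' ≤ i := by
      refine hi.2 ?_
      intro t ht
      have h4 := hs.1 (hf t ht)
      have h5 : t = α' * (α * t + β) + β' := by
        have : α' * (α * t + β) + β' - t = (α * α' - 1) * t + α' * (α * β' + β) -
          β' * (α * α' - 1) := by ring
        rw [h1, h2] at this
        linarith
      have h6 : α' < 0 := by
        by_contra hc
        have : α * α' ≤ 0 := mul_nonpos_of_nonpos_of_nonneg hneg.le (not_lt.1 hc)
        linarith
      have := mul_le_mul_of_nonpos_left h4 h6.le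
      linarith
    have h7 := mul_le_mul_of_nonpos_left h3 hneg.le
    have h8 : α * (α' * s + β') + β = s := by
      have : α * (α' * s + β') + β = (α * α') * s + (α * β' + β) := by ring
      rw [this, h1, h2]
      ring
    linarith
  · refine hs.2 ?_
    intro t ht
    have h4 := hi.1 (hf' t ht)
    have h7 := mul_le_mul_of_nonpos_left h4 hneg.le
    have h8 : α * (α' * t + β') + β = t := by
      have : α * (α' * t + β') + β = (α * α') * t + (α * β' + β) := by ring
      rw [this, h1, h2]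
      ring
    linarith

/-- Reflection. -/
private theorem fix_inf (I : Set ℝ) (s : ℝ) (hs : IsGLB I s) (α β α' β' : ℝ) (h1 : α * α' = 1)
    (h2 : α * β' + β = 0) (hpos : 0 < α) (hf : ∀ t ∈ I, α * t + β ∈ I)
    (hf' : ∀ t ∈ I, α' * t + β' ∈ I) : α * s + β = s := by
  have h3 : IsLUB (-I) (-s) := isLUB_neg.2 (by simpa using hs)
  have h4 := fix_sup (-I) (-s) h3 α (-β) α' (-β') h1 (by linarith) hpos (by
    intro t ht
    rw [Set.mem_neg] at ht ⊢
    have := hf _ ht
    have h5 : α * -t + β = -(α * t + -β) := by ring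
    rwa [h5] at this) (by
    intro t ht
    rw [Set.mem_neg] at ht ⊢
    have := hf' _ ht
    have h5 : α' * -t + β' = -(α' * t + -β') := by ring
    rwa [h5] at this)
  linarith

private theorem swap_inf (I : Set ℝ) (s i : ℝ) (hs : IsLUB I s) (hi : IsGLB I i)
    (α β α' β' : ℝ) (h1 : α * α' = 1)
    (h2 : α * β' + β = 0) (hneg : α < 0) (hf : ∀ t ∈ I, α * t + β ∈ I)
    (hf' : ∀ t ∈ I, α' * t + β' ∈ I) : α * s + β = i := by
  have h3 : IsLUB (-I) (-i) := isLUB_neg.2 (by simpa using hi)
  have h3' : IsGLB (-I) (-s) := isGLB_neg.2 (by simpa using hs)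
  have h4 := swap_sup (-I) (-i) (-s) h3 h3' α (-β) α' (-β') h1 (by linarith) hneg (by
    intro t ht
    rw [Set.mem_neg] at ht ⊢
    have := hf _ ht
    have h5 : α * -t + β = -(α * t + -β) := by ring
    rwa [h5] at this) (by
    intro t ht
    rw [Set.mem_neg] at ht ⊢
    have := hf' _ ht
    have h5 : α' * -t + β' = -(α' * t + -β') := by ring
    rwa [h5] at this)
  linarith

private theorem exists_fix (I : Set ℝ) (hne : I.Nonempty) (hI : I ≠ Set.univ)
    (hc : I.OrdConnected) : ∃ p : ℝ, ∀ α β α' β' : ℝ, α * α' = 1 → α * β' + β = 0 →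
      (∀ t ∈ I, α * t + β ∈ I) → (∀ t ∈ I, α' * t + β' ∈ I) → α * p + β = p := by
  have key : ∀ α β α' β' t : ℝ, α * α' = 1 → α * β' + β = 0 → α * (α' * t + β') + β = t := by
    intro α β α' β' t h1 h2
    have : α * (α' * t + β') + β = (α * α') * t + (α * β' + β) := by ring
    rw [this, h1, h2]
    ring
  by_cases hA : BddAbove I
  · have hs := isLUB_csSup hne hA
    by_cases hB : BddBelow I
    · have hi := isGLB_csInf hne hB
      refine ⟨(sSup I + sInf I) / 2, ?_⟩
      intro α β α' β' h1 h2 hf hf'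
      rcases lt_trichotomy α 0 with h | h | h
      · have e1 := swap_sup I _ _ hs hi α β α' β' h1 h2 h hf hf'
        have e2 := swap_inf I _ _ hs hi α β α' β' h1 h2 h hf hf'
        linarith
      · rw [h, zero_mul] at h1
        exact absurd h1 zero_ne_one
      · have e1 := fix_sup I _ hs α β α' β' h1 h2 h hf hf'
        have e2 := fix_inf I _ hi α β α' β' h1 h2 h hf hf'
        linarith
    · refine ⟨sSup I, ?_⟩
      intro α β α' β' h1 h2 hf hf'
      rcases lt_trichotomy α 0 with h | h | h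
      · refine absurd ?_ hB
        refine ⟨α * sSup I + β, ?_⟩
        intro t ht
        have h4 := hs.1 (hf' t ht)
        have h7 := mul_le_mul_of_nonpos_left h4 h.le
        have h8 := key α β α' β' t h1 h2
        linarith
      · rw [h, zero_mul] at h1
        exact absurd h1 zero_ne_one
      · exact fix_sup I _ hs α β α' β' h1 h2 h hf hf'
  · by_cases hB : BddBelow I
    · have hi := isGLB_csInf hne hB
      refine ⟨sInf I, ?_⟩
      intro α β α' β' h1 h2 hf hf'
      rcases lt_trichotomy α 0 with h | h | h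
      · refine absurd ?_ hA
        refine ⟨α * sInf I + β, ?_⟩
        intro t ht
        have h4 := hi.1 (hf' t ht)
        have h7 := mul_le_mul_of_nonpos_left h4 h.le
        have h8 := key α β α' β' t h1 h2
        linarith
      · rw [h, zero_mul] at h1
        exact absurd h1 zero_ne_one
      · exact fix_inf I _ hi α β α' β' h1 h2 h hf hf'
    · refine absurd ?_ hI
      rw [Set.eq_univ_iff_forall]
      intro t
      rw [not_bddAbove_iff] at hA
      rw [not_bddBelow_iff] at hB
      obtain ⟨b, hb, hb'⟩ := hA t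
      obtain ⟨a, ha, ha'⟩ := hB t
      exact hc.out ha hb ⟨ha'.le, hb'.le⟩

end Real

section

variable {E : Type*} [NormedAddCommGroup E] [NormedSpace ℝ E] [FiniteDimensional ℝ E]

theorem comm_mod (D : Geo E) (hX : D.X ≠ Set.univ)
    (hdim : Module.finrank ℝ E = Module.finrank ℝ (linSub D) + 1) (δ : D.Γ)
    (hδ : δ ∈ commutator D.Γ) (x : E) (hx : x ∈ D.X) : δ.1 x - x ∈ linSub D := by
  -- the functional
  have hq : Module.finrank ℝ (E ⧸ linSub D) = 1 := by
    have := (linSub D).finrank_quotient_add_finrank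
    omega
  obtain ⟨ℓ, hℓ⟩ : ∃ ℓ : E →ₗ[ℝ] ℝ, LinearMap.ker ℓ = linSub D := by
    let e : (E ⧸ linSub D) ≃ₗ[ℝ] ℝ := LinearEquiv.ofFinrankEq _ _ (by rw [hq]; simp)
    refine ⟨e.toLinearMap.comp (linSub D).mkQ, ?_⟩
    rw [LinearEquiv.ker_comp, Submodule.ker_mkQ]
  have hmem : ∀ v : E, v ∈ linSub D ↔ ℓ v = 0 := by
    intro v
    rw [← hℓ, LinearMap.mem_ker]
  obtain ⟨e, he⟩ : ∃ e : E, ℓ e = 1 := by
    have hne : ℓ ≠ 0 := by
      intro h0
      rw [h0, LinearMap.ker_zero] at hℓ
      rw [← hℓ, finrank_top] at hdim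
      omega
    obtain ⟨y, hy⟩ : ∃ y, ℓ y ≠ 0 := by
      by_contra hcon
      push_neg at hcon
      exact hne (LinearMap.ext hcon)
    refine ⟨(ℓ y)⁻¹ • y, ?_⟩
    rw [map_smul, smul_eq_mul, inv_mul_cancel₀ hy]
  have hlin : ∀ g : D.Γ, ∀ y : E, ℓ (g.1.linear y) = ℓ (g.1.linear e) * ℓ y := by
    intro g y
    have h1 : y - ℓ y • e ∈ linSub D := by
      rw [hmem, map_sub, map_smul, he]
      simp
    have h2 := lin_inv D g.1 g.2 _ h1
    rw [hmem, map_sub, map_sub, map_smul, map_smul, smul_eq_mul] at h2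
    linarith
  have haff : ∀ g : D.Γ, ∀ y : E, ℓ (g.1 y) = ℓ (g.1.linear e) * ℓ y + ℓ (g.1 0) := by
    intro g y
    rw [← hlin g y, ← map_add]
    congr 1
    exact aff_eq' g.1 y
  -- the homomorphism
  let A : D.Γ →* ℝ :=
    { toFun := fun g => ℓ (g.1.linear e)
      map_one' := he
      map_mul' := by
        intro g h
        have : ℓ ((g * h).1.linear e) = ℓ (g.1.linear (h.1.linear e)) := rfl
        rw [this, hlin g] }
  have hA : ∀ g : D.Γ, A g = ℓ (g.1.linear e) := fun g => rfl
  have h1 : A δ = 1 := by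
    let f : D.Γ →* ℝˣ := A.toHomUnits
    have h1 : commutator D.Γ ≤ f.ker := by
      rw [commutator_def, Subgroup.commutator_le]
      intro a _ b _
      rw [MonoidHom.mem_ker, map_commutatorElement]
      exact commutatorElement_eq_one_iff_mul_comm.2 (mul_comm _ _)
    have h2 := h1 hδ
    rw [MonoidHom.mem_ker] at h2
    exact congrArg Units.val h2
  -- the interval
  have hI : ℓ '' D.X ≠ Set.univ := by
    intro hcon
    refine hX (Set.eq_univ_iff_forall.2 ?_)
    intro y
    have h2 : ℓ y ∈ ℓ '' D.X := by rw [hcon]; exact Set.mem_univ _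
    obtain ⟨z, hz, hzy⟩ := h2
    have h3 : y - z ∈ linSub D := by rw [hmem, map_sub, hzy, sub_self]
    have h4 := h3 z hz 1
    rwa [one_smul, add_sub_cancel] at h4
  have hconv : (ℓ '' D.X).OrdConnected := (D.convex.linear_image ℓ).ordConnected
  obtain ⟨p, hp⟩ := exists_fix (ℓ '' D.X) (D.nonempty.image _) hI hconv
  have hinv : ∀ g : D.Γ, ∀ t ∈ ℓ '' D.X, A g * t + ℓ (g.1 0) ∈ ℓ '' D.X := by
    rintro g t ⟨y, hy, rfl⟩
    exact ⟨g.1 y, D.inv g.1 g.2 y hy, haff g y⟩
  have hfix : ∀ g : D.Γ, A g * p + ℓ (g.1 0) = p := by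
    intro g
    refine hp (A g) (ℓ (g.1 0)) (A g⁻¹) (ℓ ((g⁻¹).1 0)) ?_ ?_ (hinv g) (hinv g⁻¹)
    · rw [← map_mul, mul_inv_cancel, map_one]
    · rw [hA, ← haff g]
      have : g.1 ((g⁻¹).1 (0 : E)) = 0 := g.1.apply_symm_apply 0
      rw [this, map_zero]
  have h5 := hfix δ
  rw [h1] at h5
  have h6 : ℓ (δ.1 0) = 0 := by linarith
  rw [hmem, map_sub, haff δ x, h6, ← hA, h1]
  ring

/-- An element acting trivially modulo the lineality space has a fixed vector there (it has no
fixed point). -/
theorem exists_fixed (D : Geo E) (hV : linSub D ≠ ⊥) (δ : D.Γ)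
    (h : ∀ x ∈ D.X, δ.1 x - x ∈ linSub D) : ∃ v : linSub D, v ≠ 0 ∧ linRep D δ v = v := by
  by_contra hcon
  push_neg at hcon
  have hinj : Function.Injective (LinearMap.id - linRep D δ : linSub D →ₗ[ℝ] linSub D) := by
    rw [← LinearMap.ker_eq_bot, LinearMap.ker_eq_bot']
    intro v hv
    by_contra hv0
    refine hcon v hv0 ?_
    rw [LinearMap.sub_apply, LinearMap.id_apply, sub_eq_zero] at hv
    exact hv.symm
  have hsurj := LinearMap.surjective_of_injective hinj
  obtain ⟨x, hx⟩ := D.nonempty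
  obtain ⟨v, hv⟩ := hsurj ⟨δ.1 x - x, h x hx⟩
  have h1 : (v : E) - δ.1.linear (v : E) = δ.1 x - x := by
    have := congrArg (fun w : linSub D => (w : E)) hv
    simpa [linRep_apply] using this
  have h2 : δ.1 (x + v) = x + v := by
    have e1 : δ.1 (x + v) = δ.1 x + δ.1.linear (v : E) := by
      rw [aff_eq' δ.1 (x + v), aff_eq' δ.1 x, map_add]
      abel
    rw [e1]
    have : δ.1 x = v - δ.1.linear (v : E) + x := by rw [h1]; abel
    rw [this]
    abel
  have h3 : x + (v : E) ∈ D.X := by
    have := v.2 x hx 1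
    rwa [one_smul] at this
  have h4 : δ.1 = 1 := D.free δ.1 δ.2 _ h3 h2
  have h5 : δ = 1 := Subtype.ext h4
  obtain ⟨w, hw⟩ := Submodule.exists_mem_ne_zero_of_ne_bot hV
  refine hcon ⟨w, hw.1⟩ ?_ ?_
  · intro h0
    exact hw.2 (congrArg Subtype.val h0)
  · rw [h5, map_one]
    rfl

theorem comm_of_trivial (D : Geo E) (a b : D.Γ) (ha : ∀ x ∈ D.X, a.1 x - x ∈ linSub D)
    (hb : ∀ x ∈ D.X, b.1 x - x ∈ linSub D) (ha' : linRep D a = 1) (hb' : linRep D b = 1) :
    a * b = b * a := by
  have key : ∀ a b : D.Γ, (∀ x ∈ D.X, b.1 x - x ∈ linSub D) → linRep D a = 1 → ∀ x ∈ D.X,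
      (a * b).1 x = a.1 x + b.1 x - x := by
    intro a b hb ha' x hx
    have h1 : (a * b).1 x = a.1 (b.1 x) := rfl
    have h2 : a.1.linear (b.1 x - x) = b.1 x - x := by
      have := linRep_apply D a ⟨b.1 x - x, hb x hx⟩
      rw [ha'] at this
      exact this.symm
    rw [h1, aff_eq' a.1 (b.1 x), aff_eq' a.1 x]
    rw [map_sub] at h2
    have h3 : a.1.linear (b.1 x) = b.1 x - x + a.1.linear x := by rw [← h2]; abel
    rw [h3]
    abel
  obtain ⟨x, hx⟩ := D.nonempty
  have h1 := key a b hb ha' x hx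
  have h2 := key b a ha hb' x hx
  have h3 : (a * b).1 x = (b * a).1 x := by
    rw [h1, h2]
    abel
  have h4 : ((b * a)⁻¹ * (a * b)).1 x = x := by
    have e1 : ((b * a)⁻¹ * (a * b)).1 x = (b * a).1.symm ((a * b).1 x) := rfl
    rw [e1, h3]
    exact (b * a).1.symm_apply_apply x
  have h5 := D.free _ ((b * a)⁻¹ * (a * b)).2 x hx h4
  have h6 : (b * a)⁻¹ * (a * b) = 1 := Subtype.ext h5
  exact (inv_mul_eq_one.1 h6).symm

/-- The group is not trivial. -/
theorem exists_ne_one (D : Geo E) (hpos : 0 < Module.finrank ℝ E)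
    (hcc : ∃ K ⊆ D.X, IsCompact K ∧ ∀ x ∈ D.X, ∃ g ∈ D.Γ, g x ∈ K) : ∃ g : D.Γ, g ≠ 1 := by
  by_contra hcon
  push_neg at hcon
  obtain ⟨K, hK, hKc, hKX⟩ := hcc
  have h1 : K = D.X := by
    apply Set.Subset.antisymm hK
    intro x hx
    obtain ⟨g, hg, hgx⟩ := hKX x hx
    have h2 : g = 1 := congrArg Subtype.val (hcon ⟨g, hg⟩)
    rw [h2] at hgx
    exact hgx
  rw [h1] at hKc
  haveI : Nontrivial E := Module.nontrivial_of_finrank_pos hpos
  haveI : NoncompactSpace E := NormedSpace.noncompactSpace ℝ E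
  have h2 : IsClopen D.X := ⟨hKc.isClosed, D.isOpen⟩
  have h3 : D.X = Set.univ := h2.eq_univ D.nonempty
  rw [h3] at hKc
  exact noncompact_univ E hKc

end

end Pool.AF
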