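import Pool.Agent.Helper94.AF.Defs

/-!
# Project AL: convex affine manifolds of dimension at most four

Definitions and stubs common to the modules.
-/

open Set Finset

namespace Pool.AF

open Pool.SV

variable {E : Type*} [NormedAddCommGroup E] [NormedSpace ℝ E]

/-- The lineality space as a linear subspace. -/
def linSub (D : Geo E) : Submodule ℝ E where
  carrier := Lin D.X
  add_mem' := by
    intro a b ha hb x hx t
    rw [smul_add, ← add_assoc]
    exact hb _ (ha x hx t) t
  zero_mem' := by
    intro x hx t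
    rwa [smul_zero, add_zero]
  smul_mem' := by
    intro c v hv x hx t
    rw [smul_smul]
    exact hv x hx _

theorem mem_linSub (D : Geo E) (v : E) : v ∈ linSub D ↔ ∀ x ∈ D.X, ∀ t : ℝ, x + t • v ∈ D.X :=
  Iff.rfl

theorem lin_inv (D : Geo E) (g : E ≃ᵃ[ℝ] E) (hg : g ∈ D.Γ) (v : E) (hv : v ∈ linSub D) :
    g.linear v ∈ linSub D := by
  intro x hx t
  have h1 : g⁻¹ x + t • v ∈ D.X := hv _ (D.inv g⁻¹ (D.Γ.inv_mem hg) x hx) t
  have h2 := D.inv g hg _ h1
  have h3 : g (g⁻¹ x + t • v) = x + t • g.linear v := by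
    rw [aff_eq' g, map_add, map_smul]
    have h4 : g (g⁻¹ x) = x := g.apply_symm_apply x
    rw [aff_eq' g] at h4
    rw [add_right_comm, h4]
  rwa [h3] at h2

/-- The representation on the lineality space. -/
noncomputable def linRep (D : Geo E) : D.Γ →* (linSub D →ₗ[ℝ] linSub D) where
  toFun g := (g.1.linear : E →ₗ[ℝ] E).restrict (fun v hv => lin_inv D g.1 g.2 v hv)
  map_one' := rfl
  map_mul' _ _ := rfl

theorem linRep_apply (D : Geo E) (g : D.Γ) (v : linSub D) :
    ((linRep D g v : linSub D) : E) = g.1.linear (v : E) := rfl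

end Pool.AF
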