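import Pool.Agent.Helper94.AL.Burn

open Set Finset

set_option linter.unusedSectionVars false

namespace Pool.AF

/-! ## AL-6 FORM: the invariant quadratic form (uses AL-5)

`σ : End V → End V` linear with `σ (ρ δ) = ρ δ⁻¹`: well defined since `∑ c_δ ρ δ = 0` implies
`tr (ρ δ' (∑ c_δ ρ δ⁻¹)) = ∑ c_δ tr (ρ (δ' δ⁻¹)) = ∑ c_δ tr (ρ (δ δ'⁻¹)) = 0` for all `δ'`, and
the `ρ δ'` span `End V`. So `σ (ρ δ T) = σ T ρ δ⁻¹`. For a functional `f`, a functional `h` put
`B v = h ∘ σ (v ⊗ f)`; for suitable `f, h` it is not zero, and `B (ρ δ v) = B v ∘ ρ δ⁻¹`.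
`B + Bᵗ` is not zero (else `B` would be alternating and, being nondegenerate by irreducibility,
impossible in odd dimension), `Δ`-invariant, nondegenerate. `B (ρ g x) (ρ g y) = c B x y` by
`schur_odd`, and `det (ρ g) ^ 2 = c ^ 3`, so `c > 0`. -/

/-- the anti-automorphism `σ` -/
private theorem exists_sigma {G V : Type*} [Group G] [AddCommGroup V] [Module ℝ V]
    [FiniteDimensional ℝ V] (ρ : G →* (V →ₗ[ℝ] V)) (Δ : Subgroup G)
    (hspan : Submodule.span ℝ ((fun δ => ρ δ) '' (Δ : Set G)) = ⊤)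
    (htr : ∀ δ ∈ Δ, LinearMap.trace ℝ V (ρ δ) = LinearMap.trace ℝ V (ρ δ⁻¹)) :
    ∃ σ : (V →ₗ[ℝ] V) →ₗ[ℝ] (V →ₗ[ℝ] V), ∀ δ ∈ Δ, σ (ρ δ) = ρ δ⁻¹ := by
  classical
  let L : (Δ →₀ ℝ) →ₗ[ℝ] (V →ₗ[ℝ] V) := Finsupp.linearCombination ℝ (fun δ : Δ => ρ δ.1)
  let L' : (Δ →₀ ℝ) →ₗ[ℝ] (V →ₗ[ℝ] V) := Finsupp.linearCombination ℝ (fun δ : Δ => ρ (δ.1)⁻¹)
  have hL : LinearMap.range L = ⊤ := by
    rw [Finsupp.range_linearCombination, ← hspan]
    congr 1
    ext T
    constructor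
    · rintro ⟨δ, rfl⟩
      exact ⟨δ.1, δ.2, rfl⟩
    · rintro ⟨δ, hδ, rfl⟩
      exact ⟨⟨δ, hδ⟩, rfl⟩
  have hker : ∀ c, L c = 0 → L' c = 0 := by
    intro c hc
    have h1 : ∀ T : V →ₗ[ℝ] V, LinearMap.trace ℝ V (L' c * T) = 0 := by
      intro T
      have hT : T ∈ Submodule.span ℝ ((fun δ => ρ δ) '' (Δ : Set G)) := by
        rw [hspan]; trivial
      refine Submodule.span_induction ?_ ?_ ?_ ?_ hT
      · rintro _ ⟨δ', hδ', rfl⟩
        let F1 : (Δ →₀ ℝ) →ₗ[ℝ] ℝ :=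
          (LinearMap.trace ℝ V) ∘ₗ (LinearMap.mulRight ℝ (ρ δ')) ∘ₗ L'
        let F2 : (Δ →₀ ℝ) →ₗ[ℝ] ℝ :=
          (LinearMap.trace ℝ V) ∘ₗ (LinearMap.mulLeft ℝ (ρ δ'⁻¹)) ∘ₗ L
        have hF : F1 = F2 := by
          refine Finsupp.lhom_ext' fun δ => ?_
          ext
          simp only [F1, F2, L, L', LinearMap.comp_apply, Finsupp.lsingle_apply,
            Finsupp.linearCombination_single, one_smul, LinearMap.mulRight_apply,
            LinearMap.mulLeft_apply]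
          rw [← map_mul, ← map_mul, htr _ (Δ.mul_mem (Δ.inv_mem δ.2) hδ')]
          congr 2
          group
        have h2 : F1 c = F2 c := by rw [hF]
        have h3 : F2 c = 0 := by simp [F2, hc]
        have h4 : F1 c = LinearMap.trace ℝ V (L' c * ρ δ') := rfl
        show LinearMap.trace ℝ V (L' c * ρ δ') = 0
        rw [← h4, h2, h3]
      · simp
      · intro x y _ _ hx hy
        rw [mul_add, map_add, hx, hy, add_zero]
      · intro a x _ hx
        rw [mul_smul_comm, map_smul, hx, smul_zero]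
    ext v
    rw [LinearMap.zero_apply, ← Module.forall_dual_apply_eq_zero_iff ℝ]
    intro f
    have h2 := h1 (f.smulRight v)
    have h3 : L' c * f.smulRight v = f.smulRight (L' c v) := by
      ext w
      simp
    rw [h3, LinearMap.trace_smulRight] at h2
    exact h2
  obtain ⟨R, hR⟩ := L.exists_rightInverse_of_surjective hL
  refine ⟨L' ∘ₗ R, fun δ hδ => ?_⟩
  have h1 : L (Finsupp.single ⟨δ, hδ⟩ 1) = ρ δ := by simp [L]
  have h2 : L' (Finsupp.single ⟨δ, hδ⟩ 1) = ρ δ⁻¹ := by simp [L']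
  have h3 : L (R (ρ δ)) = ρ δ := by
    have := LinearMap.congr_fun hR (ρ δ)
    simpa using this
  have h4 : L (R (ρ δ) - Finsupp.single ⟨δ, hδ⟩ 1) = 0 := by rw [map_sub, h3, h1, sub_self]
  have h5 := hker _ h4
  rw [map_sub, h2, sub_eq_zero] at h5
  exact h5

theorem exists_form {G V : Type*} [Group G] [AddCommGroup V] [Module ℝ V]
    [FiniteDimensional ℝ V] (hV : Module.finrank ℝ V = 3) (ρ : G →* (V →ₗ[ℝ] V))
    (Δ : Subgroup G) [Δ.Normal]
    (hirr : ∀ U : Submodule ℝ V, (∀ δ ∈ Δ, ∀ u ∈ U, ρ δ u ∈ U) → U = ⊥ ∨ U = ⊤)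
    (htr : ∀ δ ∈ Δ, LinearMap.trace ℝ V (ρ δ) = LinearMap.trace ℝ V (ρ δ⁻¹)) :
    ∃ B : V →ₗ[ℝ] V →ₗ[ℝ] ℝ, (∀ x y, B x y = B y x) ∧ (∀ x, x ≠ 0 → ∃ y, B x y ≠ 0) ∧
      ∀ g, ∃ c : ℝ, 0 < c ∧ ∀ x y, B (ρ g x) (ρ g y) = c * B x y := by
  classical
  have hodd : Odd (Module.finrank ℝ V) := by rw [hV]; decide
  have hspan := span_eq_top hodd ρ Δ hirr
  have hin : ∀ T : V →ₗ[ℝ] V, T ∈ Submodule.span ℝ ((fun δ => ρ δ) '' (Δ : Set G)) := by
    intro T; rw [hspan]; trivial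
  have hinv1 : ∀ g x, ρ g⁻¹ (ρ g x) = x := by
    intro g x
    rw [← Module.End.mul_apply, ← map_mul, inv_mul_cancel, map_one]; rfl
  have hinv2 : ∀ g x, ρ g (ρ g⁻¹ x) = x := by
    intro g x
    rw [← Module.End.mul_apply, ← map_mul, mul_inv_cancel, map_one]; rfl
  obtain ⟨σ, hσ⟩ := exists_sigma ρ Δ hspan htr
  have hσσ : ∀ T, σ (σ T) = T := by
    intro T
    refine Submodule.span_induction ?_ ?_ ?_ ?_ (hin T)
    · rintro _ ⟨δ, hδ, rfl⟩
      show σ (σ (ρ δ)) = ρ δ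
      rw [hσ δ hδ, hσ _ (Δ.inv_mem hδ), inv_inv]
    · simp
    · intro x y _ _ hx hy
      rw [map_add, map_add, hx, hy]
    · intro a x _ hx
      rw [map_smul, map_smul, hx]
  have hσm : ∀ δ ∈ Δ, ∀ T, σ (ρ δ * T) = σ T * ρ δ⁻¹ := by
    intro δ hδ T
    refine Submodule.span_induction ?_ ?_ ?_ ?_ (hin T)
    · rintro _ ⟨δ', hδ', rfl⟩
      show σ (ρ δ * ρ δ') = σ (ρ δ') * ρ δ⁻¹
      rw [← map_mul, hσ _ (Δ.mul_mem hδ hδ'), hσ _ hδ', ← map_mul, mul_inv_rev]
    · simp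
    · intro x y _ _ hx hy
      rw [mul_add, map_add, map_add, hx, hy, add_mul]
    · intro a x _ hx
      rw [mul_smul_comm, map_smul, map_smul, hx, smul_mul_assoc]
  -- a nonzero rank one operator
  have hnt : Nontrivial V := Module.nontrivial_of_finrank_pos (R := ℝ) (by rw [hV]; norm_num)
  obtain ⟨x0, hx0⟩ := exists_ne (0 : V)
  obtain ⟨f, hf⟩ := Module.Projective.exists_dual_eq_one ℝ hx0
  have hne : σ (f.smulRight x0) ≠ 0 := by
    intro h
    have h1 := hσσ (f.smulRight x0)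
    rw [h, map_zero] at h1
    have h2 := LinearMap.congr_fun h1 x0
    rw [LinearMap.smulRight_apply, hf, one_smul, LinearMap.zero_apply] at h2
    exact hx0 h2.symm
  obtain ⟨y0, hy0⟩ : ∃ y, σ (f.smulRight x0) y ≠ 0 := by
    by_contra h
    push Not at h
    exact hne (LinearMap.ext h)
  obtain ⟨h, hh⟩ := Module.Projective.exists_dual_ne_zero ℝ hy0
  let B0 : V →ₗ[ℝ] V →ₗ[ℝ] ℝ := LinearMap.mk₂ ℝ (fun x y => h (σ (f.smulRight x) y))
    (by
      intro x x' y
      have : f.smulRight (x + x') = f.smulRight x + f.smulRight x' := by ext; simp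
      rw [this, map_add, LinearMap.add_apply, map_add])
    (by
      intro c x y
      have : f.smulRight (c • x) = c • f.smulRight x := by
        ext w
        simp only [LinearMap.smulRight_apply, LinearMap.smul_apply]
        rw [smul_comm]
      rw [this, map_smul, LinearMap.smul_apply, map_smul])
    (by intro x y y'; rw [map_add, map_add])
    (by intro c x y; rw [map_smul, map_smul])
  have hB0 : ∀ x y, B0 x y = h (σ (f.smulRight x) y) := fun x y => rfl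
  have hB0inv : ∀ δ ∈ Δ, ∀ x y, B0 (ρ δ x) (ρ δ y) = B0 x y := by
    intro δ hδ x y
    rw [hB0, hB0]
    have h1 : f.smulRight (ρ δ x) = ρ δ * f.smulRight x := by ext w; simp
    rw [h1, hσm δ hδ, Module.End.mul_apply, hinv1]
  -- radical of an invariant form
  have hrad : ∀ B : V →ₗ[ℝ] V →ₗ[ℝ] ℝ, (∀ δ ∈ Δ, ∀ x y, B (ρ δ x) (ρ δ y) = B x y) →
      (∃ x y, B x y ≠ 0) → ∀ x, x ≠ 0 → ∃ y, B x y ≠ 0 := by
    intro B hB hBne x hx
    by_contra hcon
    push Not at hcon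
    have hU := hirr (LinearMap.ker B) (by
      intro δ hδ u hu
      rw [LinearMap.mem_ker] at hu ⊢
      ext y
      have h1 := hB δ hδ u (ρ δ⁻¹ y)
      rw [hinv2, hu] at h1
      simpa using h1)
    rcases hU with hU | hU
    · have h1 : x ∈ LinearMap.ker B := by
        rw [LinearMap.mem_ker]; ext y; simpa using hcon y
      rw [hU, Submodule.mem_bot] at h1
      exact hx h1
    · obtain ⟨a, b, hab⟩ := hBne
      have h1 : a ∈ LinearMap.ker B := by rw [hU]; trivial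
      rw [LinearMap.mem_ker] at h1
      rw [h1] at hab
      exact hab (by simp)
  let b : Module.Basis (Fin 3) ℝ V := Module.finBasisOfFinrankEq ℝ V hV
  -- determinant criterion
  have hdet : ∀ B : V →ₗ[ℝ] V →ₗ[ℝ] ℝ, (∀ x, x ≠ 0 → ∃ y, B x y ≠ 0) →
      (Matrix.of fun i j => B (b i) (b j)).det ≠ 0 := by
    intro B hB hd
    obtain ⟨v, hv, hv0⟩ := Matrix.exists_vecMul_eq_zero_iff.2 hd
    have hx : (∑ i, v i • b i) ≠ 0 := by
      intro h0
      apply hv
      funext i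
      exact (Fintype.linearIndependent_iff.1 b.linearIndependent) v h0 i
    obtain ⟨y, hy⟩ := hB _ hx
    apply hy
    have h1 : B (∑ i, v i • b i) = 0 := by
      refine b.ext fun j => ?_
      have h2 := congrFun hv0 j
      simp only [Matrix.vecMul, dotProduct, Matrix.of_apply, Pi.zero_apply] at h2
      simp only [map_sum, map_smul, LinearMap.sum_apply, LinearMap.smul_apply, smul_eq_mul,
        LinearMap.zero_apply]
      exact h2
    rw [h1]; simp
  have hB0nd := hrad B0 hB0inv ⟨x0, y0, by rw [hB0]; exact hh⟩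
  -- the symmetric part
  let S : V →ₗ[ℝ] V →ₗ[ℝ] ℝ := B0 + B0.flip
  have hS : ∀ x y, S x y = B0 x y + B0 y x := fun x y => rfl
  have hSinv : ∀ δ ∈ Δ, ∀ x y, S (ρ δ x) (ρ δ y) = S x y := by
    intro δ hδ x y
    rw [hS, hS, hB0inv δ hδ, hB0inv δ hδ]
  have hSne : ∃ x y, S x y ≠ 0 := by
    by_contra hcon
    push Not at hcon
    have hsk : ∀ x y, B0 y x = -B0 x y := by
      intro x y
      have := hcon x y
      rw [hS] at this
      linarith
    refine hdet B0 hB0nd ?_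
    set M : Matrix (Fin 3) (Fin 3) ℝ := Matrix.of fun i j => B0 (b i) (b j) with hM
    have h1 : M.transpose = -M := by
      ext i j
      simp only [hM, Matrix.transpose_apply, Matrix.of_apply, Matrix.neg_apply]
      exact hsk _ _
    have h2 : M.det = -M.det := by
      conv_lhs => rw [← Matrix.det_transpose, h1, Matrix.det_neg]
      simp
      ring
    linarith
  have hSnd := hrad S hSinv hSne
  refine ⟨S, fun x y => by rw [hS, hS, add_comm], hSnd, fun g => ?_⟩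
  -- the linear isomorphism given by `S`
  have hSinj : Function.Injective S := by
    rw [← LinearMap.ker_eq_bot, LinearMap.ker_eq_bot']
    intro x hx
    by_contra hne'
    obtain ⟨y, hy⟩ := hSnd x hne'
    rw [hx] at hy
    exact hy (by simp)
  let e : V ≃ₗ[ℝ] (V →ₗ[ℝ] ℝ) := LinearEquiv.ofInjectiveOfFinrankEq S hSinj
    (Subspace.dual_finrank_eq).symm
  have he : ∀ x, e x = S x := fun x => rfl
  let Bg : V →ₗ[ℝ] V →ₗ[ℝ] ℝ := (S.compl₂ (ρ g)) ∘ₗ (ρ g)
  have hBg : ∀ x y, Bg x y = S (ρ g x) (ρ g y) := fun x y => rfl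
  have hBginv : ∀ δ ∈ Δ, ∀ x y, Bg (ρ δ x) (ρ δ y) = Bg x y := by
    intro δ hδ x y
    rw [hBg, hBg]
    have h1 : ∀ z, ρ g (ρ δ z) = ρ (g * δ * g⁻¹) (ρ g z) := by
      intro z
      rw [← Module.End.mul_apply, ← Module.End.mul_apply, ← map_mul, ← map_mul]
      congr 2
      group
    rw [h1, h1, hSinv _ (Subgroup.Normal.conj_mem inferInstance δ hδ g)]
  let T : V →ₗ[ℝ] V := (e.symm : (V →ₗ[ℝ] ℝ) →ₗ[ℝ] V) ∘ₗ Bg
  have hT : ∀ x y, S (T x) y = Bg x y := by
    intro x y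
    rw [← he]
    show e (e.symm (Bg x)) y = Bg x y
    rw [LinearEquiv.apply_symm_apply]
  have hTc : ∀ δ ∈ Δ, ∀ v, T (ρ δ v) = ρ δ (T v) := by
    intro δ hδ v
    apply hSinj
    ext y
    rw [hT]
    have h1 := hBginv δ hδ v (ρ δ⁻¹ y)
    have h2 := hSinv δ hδ (T v) (ρ δ⁻¹ y)
    rw [hinv2] at h1 h2
    rw [h1, h2, hT]
  obtain ⟨c, hc⟩ := schur_odd hodd ρ Δ hirr T hTc
  have hcB : ∀ x y, S (ρ g x) (ρ g y) = c * S x y := by
    intro x y
    rw [← hBg, ← hT, hc, map_smul, LinearMap.smul_apply, smul_eq_mul]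
  refine ⟨c, ?_, hcB⟩
  have hc0 : c ≠ 0 := by
    intro h0
    obtain ⟨x, y, hxy⟩ := hSne
    have h1 := hcB (ρ g⁻¹ x) (ρ g⁻¹ y)
    rw [hinv2, hinv2, h0, zero_mul] at h1
    exact hxy h1
  set M : Matrix (Fin 3) (Fin 3) ℝ := Matrix.of fun i j => S (b i) (b j) with hM
  have hMd : M.det ≠ 0 := hdet S hSnd
  set P : Matrix (Fin 3) (Fin 3) ℝ := LinearMap.toMatrix b b (ρ g) with hP
  have hPb : ∀ j, ρ g (b j) = ∑ i, P i j • b i := by
    intro j
    rw [← b.sum_repr (ρ g (b j))]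
    exact Finset.sum_congr rfl fun i _ => by rw [hP, LinearMap.toMatrix_apply]
  have hmat : P.transpose * M * P = c • M := by
    ext i j
    rw [Matrix.smul_apply, smul_eq_mul]
    have h1 : c * M i j = S (ρ g (b i)) (ρ g (b j)) := (hcB (b i) (b j)).symm
    rw [h1, hPb i, hPb j]
    simp only [map_sum, map_smul, LinearMap.sum_apply, LinearMap.smul_apply, smul_eq_mul,
      Matrix.mul_apply, Matrix.transpose_apply, hM, Matrix.of_apply]
    exact Finset.sum_congr rfl fun k _ => mul_comm _ _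
  have hd := congrArg Matrix.det hmat
  rw [Matrix.det_mul, Matrix.det_mul, Matrix.det_transpose, Matrix.det_smul, Fintype.card_fin] at hd
  have h3 : c ^ 3 = P.det ^ 2 := by
    have : (c ^ 3 - P.det ^ 2) * M.det = 0 := by linarith
    rcases mul_eq_zero.1 this with h | h
    · linarith
    · exact absurd h hMd
  have h4 : 0 ≤ c ^ 3 := by rw [h3]; positivity
  have h5 : 0 ≤ c := by
    by_contra hneg
    push Not at hneg
    have : c ^ 3 < 0 := by
      have h6 : 0 < c ^ 2 := by positivity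
      nlinarith
    linarith
  exact lt_of_le_of_ne h5 (Ne.symm hc0)

end Pool.AF
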