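import Pool.Agent.Helper94.AL.Defs

open Set Finset

set_option linter.unusedSectionVars false

namespace Pool.AF

open Pool.SV

/-! ## AL-1 SMALL: quotients of dimension at most two are of quadratic type

`L` = all quadratic forms on `B` that are invariant under the translations by `A`; for
`dim (B / A) = 2` with basis `b₁, b₂` the map `q ↦ (q b₁, q b₂, q (b₁ + b₂))` is injective on `L`. -/

namespace SmallAux

variable {W : Type*} [AddCommGroup W] [Module ℝ W]

/-- the quadratic forms invariant under translations by `A` -/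
def invQ (A : Submodule ℝ W) : Submodule ℝ (QuadraticForm ℝ W) where
  carrier := {q | ∀ a b : W, a ∈ A → q (b + a) = q b}
  add_mem' := by
    intro q q' hq hq' a b ha
    rw [add_apply, add_apply, hq a b ha, hq' a b ha]
  zero_mem' := by
    intro a b _
    rfl
  smul_mem' := by
    intro c q hq a b ha
    rw [smul_apply, smul_apply, hq a b ha]

theorem mem_invQ {A : Submodule ℝ W} {q : QuadraticForm ℝ W} :
    q ∈ invQ A ↔ ∀ a b : W, a ∈ A → q (b + a) = q b := Iff.rfl

/-- evaluation -/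
def evL (A : Submodule ℝ W) {m : ℕ} (v : Fin m → W) : invQ A →ₗ[ℝ] (Fin m → ℝ) where
  toFun q i := q.1 (v i)
  map_add' q q' := by
    funext i
    exact add_apply _ _ _
  map_smul' c q := by
    funext i
    exact smul_apply _ _ _

theorem finrank_le (A : Submodule ℝ W) {m : ℕ} (v : Fin m → W)
    (h : ∀ q ∈ invQ A, (∀ i, q (v i) = 0) → ∀ b, q b = 0) :
    Module.finrank ℝ (invQ A) ≤ m := by
  have h1 : Function.Injective (evL A v) := by
    intro q q' hq
    apply Subtype.ext
    apply QuadraticMap.ext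
    intro b
    have h3 := h (q.1 - q'.1) ((invQ A).sub_mem q.2 q'.2) (fun i => by
      rw [sub_apply]
      exact sub_eq_zero.2 (congrFun hq i)) b
    rw [sub_apply] at h3
    exact sub_eq_zero.1 h3
  have h2 := LinearMap.finrank_le_finrank_of_injective h1
  simpa using h2

theorem eq_of_sub (A : Submodule ℝ W) {q : QuadraticForm ℝ W} (hq : q ∈ invQ A) {b c : W}
    (h : b - c ∈ A) : q b = q c := by
  have := hq (b - c) c h
  rwa [add_sub_cancel] at this

theorem finrank_invQ [FiniteDimensional ℝ W] (A : Submodule ℝ W) (d : ℕ) (hd : d ≤ 2)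
    (p : W →ₗ[ℝ] (Fin d → ℝ)) (hp : ∀ b, p b = 0 → b ∈ A) (s : (Fin d → ℝ) →ₗ[ℝ] W)
    (hs : ∀ v, p (s v) = v) : Module.finrank ℝ (invQ A) ≤ d + 1 := by
  have key : ∀ q ∈ invQ A, ∀ b, q b = q (s (p b)) := fun q hq b =>
    eq_of_sub A hq (hp _ (by rw [map_sub, hs, sub_self]))
  interval_cases d
  · refine (finrank_le A (m := 0) (fun i => i.elim0) fun q hq _ b => ?_).trans (by norm_num)
    rw [key q hq b, Subsingleton.elim (p b) 0, map_zero, QuadraticMap.map_zero]
  · refine (finrank_le A (m := 1) (fun _ => s 1) fun q hq h b => ?_).trans (by norm_num)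
    have h1 : p b = (p b 0) • (1 : Fin 1 → ℝ) := by
      funext i
      fin_cases i
      simp
    rw [key q hq b, h1, map_smul, QuadraticMap.map_smul, h 0, smul_zero]
  · refine finrank_le A (m := 3) ![s ![1, 0], s ![0, 1], s ![1, 0] + s ![0, 1]]
      fun q hq h b => ?_
    have h0 : q (s ![1, 0]) = 0 := h 0
    have h1 : q (s ![0, 1]) = 0 := h 1
    have h2 : q (s ![1, 0] + s ![0, 1]) = 0 := h 2
    have h3 : p b = (p b 0) • ![1, 0] + (p b 1) • ![0, 1] := by
      funext i
      fin_cases i <;> simp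
    have h4 : QuadraticMap.polar q (s ![1, 0]) (s ![0, 1]) = 0 := by
      rw [QuadraticMap.polar, h0, h1, h2]
      simp
    rw [key q hq b, h3, map_add, map_smul, map_smul, QuadraticMap.map_add (q : W → ℝ), QuadraticMap.map_smul,
      QuadraticMap.map_smul, h0, h1, QuadraticMap.polar_smul_left, QuadraticMap.polar_smul_right,
      h4]
    simp

end SmallAux

open SmallAux

theorem quadType_small {E : Type*} [NormedAddCommGroup E] [NormedSpace ℝ E]
    [FiniteDimensional ℝ E] (Γ : Subgroup (E ≃ᵃ[ℝ] E)) (A B : Submodule ℝ E) (hAB : A ≤ B)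
    (hA : ∀ g ∈ Γ, ∀ v ∈ A, g.linear v ∈ A) (hB : ∀ g ∈ Γ, ∀ v ∈ B, g.linear v ∈ B)
    (hdim : Module.finrank ℝ B ≤ Module.finrank ℝ A + 2) : QuadType Γ A B 1 := by
  classical
  set A' : Submodule ℝ B := A.comap B.subtype with hA'
  have hmem : ∀ b : B, b ∈ A' ↔ (b : E) ∈ A := fun b => Iff.rfl
  have hfr : Module.finrank ℝ A' = Module.finrank ℝ A :=
    LinearEquiv.finrank_eq (Submodule.comapSubtypeEquivOfLe hAB)
  set d := Module.finrank ℝ (B ⧸ A') with hd
  have hsum : d + Module.finrank ℝ A = Module.finrank ℝ B := by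
    rw [hd, ← hfr]
    exact Submodule.finrank_quotient_add_finrank A'
  let φ : (B ⧸ A') ≃ₗ[ℝ] (Fin d → ℝ) := (Module.finBasis ℝ (B ⧸ A')).equivFun
  let p : B →ₗ[ℝ] (Fin d → ℝ) := (φ : (B ⧸ A') →ₗ[ℝ] (Fin d → ℝ)) ∘ₗ A'.mkQ
  have hp : ∀ b, p b = 0 ↔ b ∈ A' := by
    intro b
    show φ (A'.mkQ b) = 0 ↔ _
    rw [LinearEquiv.map_eq_zero_iff, Submodule.mkQ_apply, Submodule.Quotient.mk_eq_zero]
  have hsurj : Function.Surjective p := by
    intro v
    obtain ⟨b, hb⟩ := A'.mkQ_surjective (φ.symm v)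
    refine ⟨b, ?_⟩
    show φ (A'.mkQ b) = v
    rw [hb, LinearEquiv.apply_symm_apply]
  obtain ⟨s, hs⟩ := p.exists_rightInverse_of_surjective (LinearMap.range_eq_top.2 hsurj)
  have hs' : ∀ v, p (s v) = v := fun v => by
    have := congrArg (fun f : (Fin d → ℝ) →ₗ[ℝ] (Fin d → ℝ) => f v) hs
    simpa using this
  refine ⟨invQ A', ?_, ?_, ?_, ?_⟩
  · have h1 := finrank_invQ A' d (by omega) p (fun b hb => (hp b).1 hb) s hs'
    omega
  · intro q hq a b ha
    exact hq a b ha
  · refine ⟨∑ i : Fin d, QuadraticMap.linMulLin (LinearMap.proj i ∘ₗ p) (LinearMap.proj i ∘ₗ p),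
      ?_, ?_⟩
    · intro a b ha
      have h1 : p (b + a) = p b := by
        rw [map_add, (hp a).2 ha, add_zero]
      simp only [_root_.sum_apply, QuadraticMap.linMulLin_apply, LinearMap.comp_apply, h1]
    · intro b hb
      have h1 : p b ≠ 0 := fun h => hb ((hp b).1 h)
      obtain ⟨i, hi⟩ := Function.ne_iff.1 h1
      simp only [_root_.sum_apply, QuadraticMap.linMulLin_apply, LinearMap.comp_apply,
        LinearMap.proj_apply]
      refine Finset.sum_pos' (fun j _ => mul_self_nonneg _) ⟨i, Finset.mem_univ _, ?_⟩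
      exact mul_self_pos.2 hi
  · intro g hg q hq
    let T : B →ₗ[ℝ] B := (g.linear : E →ₗ[ℝ] E).restrict (hB g hg)
    refine ⟨q.comp T, ?_, ?_⟩
    · intro a b ha
      rw [QuadraticMap.comp_apply, QuadraticMap.comp_apply, map_add]
      exact hq _ _ (hA g hg _ ha)
    · intro b b' hbb
      rw [QuadraticMap.comp_apply]
      congr 1
      exact Subtype.ext hbb.symm

end Pool.AF
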