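import Pool.Agent.Helper94.AF.Main
import Pool.Agent.Helper94.AL.Small
import Pool.Agent.Helper94.AL.Comm
import Pool.Agent.Helper94.AL.Alg
import Pool.Agent.Helper94.AL.Cliff
import Pool.Agent.Helper94.AL.Form
import Pool.Agent.Helper94.AL.Lorentz

open Set Finset

set_option linter.unusedSectionVars false

namespace Pool.AF

open Pool.SV
open scoped commutatorElement

section

variable {E : Type*} [NormedAddCommGroup E] [NormedSpace ℝ E] [FiniteDimensional ℝ E]

/-- A flag of length one. -/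
theorem coneFlag_one (D : Geo E) (Γ₁ : Subgroup (E ≃ᵃ[ℝ] E)) (hle : Γ₁ ≤ D.Γ)
    (hX : D.X ≠ Set.univ) (hV : linSub D ≠ ⊥)
    (hT : QuadType Γ₁ ⊥ (linSub D) 1 ∨ ConeType Γ₁ ⊥ (linSub D)) : ConeFlag Γ₁ D.X := by
  refine ⟨1, fun i => if i = 0 then ⊥ else linSub D, by simp, fun v => by simpa using mem_linSub D v,
    ?_, fun h => absurd h hX⟩
  intro i hi
  have h0 : i = 0 := by omega
  subst h0
  simp only [↓reduceIte, zero_add, one_ne_zero]
  exact ⟨bot_lt_iff_ne_bot.mpr hV, fun g hg v hv => lin_inv D g (hle hg) v hv, hT⟩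

/-- A flag of length two. -/
theorem coneFlag_two (D : Geo E) (Γ₁ : Subgroup (E ≃ᵃ[ℝ] E)) (hle : Γ₁ ≤ D.Γ)
    (hX : D.X ≠ Set.univ) (U : Submodule ℝ E) (hU : U ≠ ⊥) (hUV : U < linSub D)
    (hinv : ∀ g ∈ Γ₁, ∀ v ∈ U, g.linear v ∈ U)
    (hT : QuadType Γ₁ ⊥ U 1) (hT' : QuadType Γ₁ U (linSub D) 1) : ConeFlag Γ₁ D.X := by
  refine ⟨2, fun i => if i = 0 then ⊥ else if i = 1 then U else linSub D, by simp,
    fun v => by simpa using mem_linSub D v, ?_, fun h => absurd h hX⟩
  intro i hi
  have h0 : i = 0 ∨ i = 1 := by omega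
  rcases h0 with rfl | rfl
  · simp only [↓reduceIte, zero_add, one_ne_zero]
    exact ⟨bot_lt_iff_ne_bot.mpr hU, hinv, Or.inl hT⟩
  · simp only [↓reduceIte, one_ne_zero, Nat.reduceAdd, OfNat.ofNat_ne_zero, OfNat.ofNat_ne_one]
    exact ⟨hUV, fun g hg v hv => lin_inv D g (hle hg) v hv, Or.inl hT'⟩

theorem finrank_linSub_lt (D : Geo E) (hX : D.X ≠ Set.univ) :
    Module.finrank ℝ (linSub D) < Module.finrank ℝ E := by
  refine Submodule.finrank_lt ?_
  intro htop
  apply hX
  obtain ⟨x, hx⟩ := D.nonempty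
  rw [Set.eq_univ_iff_forall]
  intro y
  have h5 : y - x ∈ linSub D := by rw [htop]; exact Submodule.mem_top
  have h6 := (mem_linSub D _).mp h5 x hx 1
  rwa [one_smul, add_sub_cancel] at h6

theorem vanish_low (D : Geo E) (hpos : 0 < Module.finrank ℝ E)
    (hcc : ∃ K ⊆ D.X, IsCompact K ∧ ∀ x ∈ D.X, ∃ g ∈ D.Γ, g x ∈ K)
    (hX : D.X ≠ Set.univ) (h4 : Module.finrank ℝ E ≤ 4) : Vanish D := by
  classical
  have hlt := finrank_linSub_lt D hX
  have hinvV : ∀ g ∈ D.Γ, ∀ v ∈ linSub D, g.linear v ∈ linSub D :=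
    fun g hg v hv => lin_inv D g hg v hv
  have hbot : ∀ g ∈ D.Γ, ∀ v ∈ (⊥ : Submodule ℝ E), g.linear v ∈ (⊥ : Submodule ℝ E) := by
    intro g _ v hv
    rw [Submodule.mem_bot] at hv ⊢
    rw [hv, map_zero]
  by_cases h2 : Module.finrank ℝ (linSub D) ≤ 2
  · by_cases hV : linSub D = ⊥
    · refine vanish_of_coneFlag D hpos hcc ⟨0, fun _ => ⊥, rfl, fun v => ?_, fun i hi => ?_,
        fun h => absurd h hX⟩
      · rw [← hV]
        exact mem_linSub D v
      · exact absurd hi (Nat.not_lt_zero _)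
    · refine vanish_of_coneFlag D hpos hcc (coneFlag_one D D.Γ le_rfl hX hV (Or.inl ?_))
      refine quadType_small D.Γ ⊥ (linSub D) bot_le hbot hinvV ?_
      rw [finrank_bot]
      omega
  have h3 : Module.finrank ℝ (linSub D) = 3 := by omega
  have hE : Module.finrank ℝ E = Module.finrank ℝ (linSub D) + 1 := by omega
  have hV : linSub D ≠ ⊥ := by
    intro h
    rw [h, finrank_bot] at h3
    omega
  by_cases hirr : ∀ H : Subgroup D.Γ, H.FiniteIndex → ∀ U : Submodule ℝ (linSub D),
      (∀ h ∈ H, ∀ u ∈ U, linRep D h u ∈ U) → U = ⊥ ∨ U = ⊤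
  · rcases trivial_or_irr h3 (linRep D) hirr (commutator D.Γ)
      (fun δ hδ => det_commutator (linRep D) δ hδ) with htriv | hirrΔ
    · -- the commutator subgroup acts trivially on the lineality space
      refine vanish_of_hasAbNormal D hpos ?_ hcc
      by_cases hc : commutator D.Γ = ⊥
      · obtain ⟨g, hg⟩ := exists_ne_one D hpos hcc
        refine ⟨⊤, inferInstance, ?_, ?_⟩
        · intro h
          apply hg
          have : g ∈ (⊤ : Subgroup D.Γ) := Subgroup.mem_top _
          rwa [h, Subgroup.mem_bot] at this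
        · intro a _ b _
          have h5 : ⁅a, b⁆ ∈ commutator D.Γ :=
            Subgroup.commutator_mem_commutator (Subgroup.mem_top _) (Subgroup.mem_top _)
          rw [hc, Subgroup.mem_bot] at h5
          exact commutatorElement_eq_one_iff_mul_comm.mp h5
      · refine ⟨commutator D.Γ, inferInstance, hc, fun a ha b hb => ?_⟩
        exact comm_of_trivial D a b (fun x hx => comm_mod D hX hE a ha x hx)
          (fun x hx => comm_mod D hX hE b hb x hx) (htriv a ha) (htriv b hb)
    · obtain ⟨B, hB1, hB2, hB3⟩ := exists_form h3 (linRep D) (commutator D.Γ) hirrΔ (by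
        intro δ hδ
        refine trace_eq h3 _ _ ?_ (det_commutator (linRep D) δ hδ)
          (exists_fixed D hV δ (fun x hx => comm_mod D hX hE δ hδ x hx))
        rw [← map_mul, mul_inv_cancel, map_one])
      obtain ⟨Γ₁, hle, hfin, hT⟩ := type_of_form D.Γ (linSub D) h3 hinvV B hB1 hB2 (by
        intro g hg
        obtain ⟨c, hc, hc2⟩ := hB3 ⟨g, hg⟩
        refine ⟨c, hc, fun x y x' y' hx hy => ?_⟩
        have e1 : x' = linRep D ⟨g, hg⟩ x := Subtype.ext hx
        have e2 : y' = linRep D ⟨g, hg⟩ y := Subtype.ext hy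
        rw [e1, e2, hc2])
      exact vanish_of_virtual_coneFlag D hpos hcc Γ₁ hle hfin
        (coneFlag_one D Γ₁ hle hX hV hT)
  · push Not at hirr
    obtain ⟨H, hH, U, hU, hU0, hU1⟩ := hirr
    have hle : H.map D.Γ.subtype ≤ D.Γ := Subgroup.map_subtype_le _
    have hfin : (H.map D.Γ.subtype).relIndex D.Γ ≠ 0 := by
      have h5 : (H.map D.Γ.subtype).relIndex D.Γ = H.index := relIndex_geoSub D H
      rw [h5]
      exact hH.index_ne_zero
    set U' : Submodule ℝ E := U.map (linSub D).subtype with hU'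
    have hfr : Module.finrank ℝ U' = Module.finrank ℝ U :=
      (LinearEquiv.finrank_eq (Submodule.equivMapOfInjective _ (linSub D).injective_subtype U)).symm
    have hpos' : 0 < Module.finrank ℝ U := by
      rw [Nat.pos_iff_ne_zero]
      intro h
      exact hU0 (Submodule.finrank_eq_zero.mp h)
    have hlt' : Module.finrank ℝ U < 3 := by
      rw [← h3]
      exact Submodule.finrank_lt hU1
    have hU'ne : U' ≠ ⊥ := by
      intro h
      rw [h, finrank_bot] at hfr
      omega
    have hU'le : U' ≤ linSub D := Submodule.map_subtype_le _ _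
    have hU'lt : U' < linSub D := by
      refine lt_of_le_of_ne hU'le ?_
      intro h
      rw [h, h3] at hfr
      omega
    have hinvU : ∀ g ∈ H.map D.Γ.subtype, ∀ v ∈ U', g.linear v ∈ U' := by
      rintro _ ⟨g, hg, rfl⟩ _ ⟨u, hu, rfl⟩
      exact ⟨linRep D g u, hU g hg u hu, rfl⟩
    refine vanish_of_virtual_coneFlag D hpos hcc _ hle hfin
      (coneFlag_two D _ hle hX U' hU'ne hU'lt hinvU ?_ ?_)
    · refine quadType_small _ ⊥ U' bot_le (fun g hg => hbot g (hle hg)) hinvU ?_
      rw [finrank_bot]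
      omega
    · refine quadType_small _ U' (linSub D) hU'le hinvU (fun g hg => hinvV g (hle hg)) ?_
      omega

end

end Pool.AF
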